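import Pool.Agent.Q99.SML5.Eval
import Pool.Agent.Q99.SML2.Main2
import Pool.Agent.W705.JR.Vas

/-!
# Jones polynomials of powers of braids and finite-dimensional spaces
-/

set_option autoImplicit false

open Finset LaurentPolynomial Pool.Agent.H891R2.Jones Pool.Agent.W639.RB Q99.SML Q99.SML2

namespace Q99.SML5

/-- relations between values at several points, along a line -/
theorem line_p {p : ℕ} [Fact p.Prime] {r k : ℕ} {m : Fin r → ℕ} (hm : ∀ i, 0 < m i)
    (O : ∀ i, Outer (m i)) (w u : Fin r → Fin k → Word) (a : Fin r → ℤ_[p]ˣ)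
    (ha : ∀ i, PadicInt.toZMod (a i : ℤ_[p]) = 1) (c : Fin r → ℤ_[p]) (g : ℤ_[p]) (P : ℕ)
    (n : Fin k → ℤ) (j : Fin k) (hP : ∀ i, wperm (m i) (w i j) ^ P = 1) (s : ℤ) (Z : Finset ℤ)
    (hbig : ∑ i, (m i).choose (m i / 2) + 1 < p)
    (hZ : ∀ z ∈ Z, ∑ i, c i * spec (a i) (family (O i) (w i) (u i)
      (Function.update n j (s + P * z))).close.fPoly = g)
    (hc : ∑ i, (m i).choose (m i / 2) + 1 ≤ Z.card) (z : ℤ) :
    ∑ i, c i * spec (a i) (family (O i) (w i) (u i)
      (Function.update n j (s + P * z))).close.fPoly = g := by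
  classical
  choose O' x hx using fun i => family_update (m i) k (w i) (u i) n j (O i)
  choose e l v he hval using fun i => value (hm i) (a i) (O' i) (w i j) (x i) P (hP i) s
  choose B hB using fun i => trivial_mod (m := m i) (a i) (ha i) (w i j) P (hP i) (e i) (he i)
  let N : ∀ i, (Module.End ℤ_[p] (NX (m i) → ℤ_[p]))ˣ := fun i =>
    sU (eta (a i) ^ (e i)) * WU (a i) (w i j) ^ P
  let l' : ∀ i, (NX (m i) → ℤ_[p]) →ₗ[ℤ_[p]] ℤ_[p] := fun i => c i • l i
  have key : ∀ t : ℤ, usq N l' v g t =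
      ∑ i, c i * spec (a i) (family (O i) (w i) (u i)
        (Function.update n j (s + P * t))).close.fPoly - g := by
    intro t
    unfold usq
    congr 1
    refine Finset.sum_congr rfl fun i _ => ?_
    rw [hx i, hval i t]
    rfl
  have hiff : ∀ t : ℤ, usq N l' v g t = 0 ↔
      ∑ i, c i * spec (a i) (family (O i) (w i) (u i)
        (Function.update n j (s + P * t))).close.fPoly = g := by
    intro t
    rw [key, sub_eq_zero]
  rw [← hiff]
  refine all_zero N l' v g (fun i => (m i).choose (m i / 2)) hbig (fun i => ?_) Z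
    (fun t ht => (hiff t).2 (hZ t ht)) hc z
  have hcell : Cellular (N i).1 := by
    show Cellular ((sU (eta (a i) ^ e i) : (Module.End ℤ_[p] (NX (m i) → ℤ_[p]))ˣ).1 *
      (WU (a i) (w i j) ^ P : (Module.End ℤ_[p] (NX (m i) → ℤ_[p]))ˣ).1)
    rw [Units.val_pow_eq_pow_val]
    exact (Cellular.one.smul _).mul ((WU_cellular (a i) (w i j)).pow P)
  obtain ⟨R, h1, h2, h3⟩ := (hcell.div (p : ℤ_[p]) p_ne (hB i)).ann
  exact ⟨B i, R, hB i, h1, h2, h3⟩

/-- membership in a finite-dimensional space, along a line -/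
theorem line_comb {r k d : ℕ} {m : Fin r → ℕ} (hm : ∀ i, 0 < m i) (O : ∀ i, Outer (m i))
    (w u : Fin r → Fin k → Word) (c : Fin r → ℤ[T;T⁻¹]) (g : ℤ[T;T⁻¹]) (v : Fin d → ℤ[T;T⁻¹])
    (P : ℕ) (n : Fin k → ℤ) (j : Fin k)
    (hP : ∀ i, wperm (m i) (w i j) ^ P = 1) (s : ℤ) (Z : Finset ℤ)
    (hZ : ∀ z ∈ Z, IsComb v (∑ i, c i * (family (O i) (w i) (u i)
      (Function.update n j (s + P * z))).close.fPoly - g))
    (hc : (d + 1) * ∑ i, (m i).choose (m i / 2) + 1 ≤ Z.card) (z : ℤ) :
    IsComb v (∑ i, c i * (family (O i) (w i) (u i)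
      (Function.update n j (s + P * z))).close.fPoly - g) := by
  classical
  obtain ⟨p, hpr, hp⟩ := Nat.exists_infinite_primes ((d + 1) * ∑ i, (m i).choose (m i / 2) + 2)
  have : Fact (Nat.Prime p) := ⟨hp⟩
  obtain ⟨a, lam, ha, hlam⟩ := exists_functional p v
  let π : Fin ((d + 1) * r) → Fin (d + 1) × Fin r := finProdFinEquiv.symm
  have hsum : ∀ {M : Type} [AddCommMonoid M] (f : Fin (d + 1) × Fin r → M),
      ∑ t, f (π t) = ∑ x, ∑ i, f (x, i) := by
    intro M _ f
    rw [← Fintype.sum_prod_type]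
    exact Equiv.sum_comp finProdFinEquiv.symm f
  have hcard : ∑ t, (m (π t).2).choose (m (π t).2 / 2) =
      (d + 1) * ∑ i, (m i).choose (m i / 2) := by
    rw [hsum (fun x => (m x.2).choose (m x.2 / 2))]
    show ∑ _x : Fin (d + 1), ∑ i, (m i).choose (m i / 2) = _
    rw [Finset.sum_const, Finset.card_univ, Fintype.card_fin, smul_eq_mul]
  have key : ∀ n' : Fin k → ℤ, (∑ t, (lam (π t).1 * spec (a (π t).1) (c (π t).2)) *
      spec (a (π t).1) (family (O (π t).2) (w (π t).2) (u (π t).2) n').close.fPoly =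
        ∑ x, lam x * spec (a x) g) ↔
      IsComb v (∑ i, c i * (family (O i) (w i) (u i) n').close.fPoly - g) := by
    intro n'
    rw [← hlam, hsum (fun y => (lam y.1 * spec (a y.1) (c y.2)) *
      spec (a y.1) (family (O y.2) (w y.2) (u y.2) n').close.fPoly), ← sub_eq_zero,
      ← Finset.sum_sub_distrib]
    have h1 : ∀ x : Fin (d + 1), ∑ i, (lam x * spec (a x) (c i)) *
        spec (a x) (family (O i) (w i) (u i) n').close.fPoly - lam x * spec (a x) g =
        lam x * spec (a x) (∑ i, c i * (family (O i) (w i) (u i) n').close.fPoly - g) := by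
      intro x
      rw [map_sub, map_sum, mul_sub, Finset.mul_sum]
      congr 1
      refine Finset.sum_congr rfl fun i _ => ?_
      rw [map_mul, mul_assoc]
    simp only [h1]
  rw [← key]
  refine line_p (fun t => hm (π t).2) (fun t => O (π t).2) (fun t => w (π t).2)
    (fun t => u (π t).2) (fun t => a (π t).1) (fun t => ha (π t).1)
    (fun t => lam (π t).1 * spec (a (π t).1) (c (π t).2)) (∑ x, lam x * spec (a x) g) P n j
    (fun t => hP (π t).2) s Z (by rw [hcard]; omega) (fun y hy => (key _).2 (hZ y hy))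
    (by rw [hcard]; exact hc) z

/-- the zero-one law for membership -/
theorem count_comb {r k d : ℕ} {m : Fin r → ℕ} (hm : ∀ i, 0 < m i) (O : ∀ i, Outer (m i))
    (w u : Fin r → Fin k → Word) (P : ℕ) (hP : ∀ i j, wperm (m i) (w i j) ^ P = 1)
    (s : Fin k → ℤ) (c : Fin r → ℤ[T;T⁻¹]) (g : ℤ[T;T⁻¹]) (v : Fin d → ℤ[T;T⁻¹]) :
    (∀ q : Fin k → ℤ,
        IsComb v (∑ i, c i * (family (O i) (w i) (u i) (s + (P : ℤ) • q)).close.fPoly - g)) ∨
      ∀ A : Fin k → Finset ℤ, {q : Fin k → ℤ | (∀ j, q j ∈ A j) ∧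
          IsComb v (∑ i, c i * (family (O i) (w i) (u i) (s + (P : ℤ) • q)).close.fPoly -
            g)}.ncard ≤
        (d + 1) * (∑ i, (m i).choose (m i / 2)) * ∑ j, ∏ l ∈ univ.erase j, #(A l) := by
  classical
  by_cases hall : ∀ q : Fin k → ℤ,
      IsComb v (∑ i, c i * (family (O i) (w i) (u i) (s + (P : ℤ) • q)).close.fPoly - g)
  · exact Or.inl hall
  right
  intro A
  have hf : {q : Fin k → ℤ | (∀ j, q j ∈ A j) ∧
      IsComb v (∑ i, c i * (family (O i) (w i) (u i) (s + (P : ℤ) • q)).close.fPoly -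
        g)}.Finite := by
    apply (Fintype.piFinset A).finite_toSet.subset
    intro n hn
    rw [Finset.mem_coe, Fintype.mem_piFinset]
    exact hn.1
  rw [Set.ncard_eq_toFinset_card _ hf, ← faces_eq]
  have h := box_count 1 one_pos ((d + 1) * ∑ i, (m i).choose (m i / 2)) k
    (fun q => IsComb v (∑ i, c i * (family (O i) (w i) (u i) (s + (P : ℤ) • q)).close.fPoly - g))
    ?_ A hf.toFinset ?_
  · rwa [mul_one] at h
  · intro q j s0 Z hZ hc z
    have hupd : ∀ y : ℤ, s + (P : ℤ) • Function.update q j (s0 + ((1 : ℕ) : ℤ) * y) =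
        Function.update (s + (P : ℤ) • q) j ((s j + P * s0) + P * y) := by
      intro y
      funext l
      by_cases hl : l = j
      · subst hl
        rw [Pi.add_apply, Pi.smul_apply, Function.update_self, Function.update_self, smul_eq_mul,
          Nat.cast_one]
        ring
      · rw [Pi.add_apply, Pi.smul_apply, Function.update_of_ne hl, Function.update_of_ne hl,
          Pi.add_apply, Pi.smul_apply]
    have h1 := line_comb hm O w u c g v P (s + (P : ℤ) • q) j (fun i => hP i j) (s j + P * s0) Z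
      (fun y hy => by
        rw [← hupd]
        exact hZ y hy) hc z
    rw [← hupd] at h1
    exact h1
  · intro q hq
    rw [Set.Finite.mem_toFinset] at hq
    push Not at hall
    obtain ⟨q0, hq0⟩ := hall
    refine ⟨hq.1, hq.2, q0 - q, ?_⟩
    have h3 : q + ((1 : ℕ) : ℤ) • (q0 - q) = q0 := by
      rw [Nat.cast_one, one_smul]; abel
    rw [h3]
    exact hq0

/-! ### linear algebra -/

theorem IsComb.cons {d : ℕ} {v : Fin d → ℤ[T;T⁻¹]} {F : ℤ[T;T⁻¹]} (h : IsComb v F)
    (G : ℤ[T;T⁻¹]) : IsComb (Fin.cons G v : Fin (d + 1) → ℤ[T;T⁻¹]) F := by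
  obtain ⟨N, x, hN, h1⟩ := h
  refine ⟨N, Fin.cons 0 x, hN, ?_⟩
  rw [h1, Fin.sum_univ_succ, Fin.cons_zero, Fin.cons_zero, zero_smul, zero_add]
  refine Finset.sum_congr rfl fun j _ => ?_
  rw [Fin.cons_succ, Fin.cons_succ]

/-- either many independent members, or a small spanning set -/
theorem rank_alternative {X : Type} (F : X → ℤ[T;T⁻¹]) (Z : Finset X) (hZ : Z.Nonempty) :
    ∀ d : ℕ, (∃ z : Fin (d + 1) → X, (∀ i, z i ∈ Z) ∧ LinearIndependent ℤ (fun i => F (z i))) ∨
      ∃ z : Fin d → X, (∀ i, z i ∈ Z) ∧ ∀ q ∈ Z, IsComb (fun i => F (z i)) (F q) := by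
  have hstep : ∀ d : ℕ,
      (∃ z : Fin d → X, (∀ i, z i ∈ Z) ∧ LinearIndependent ℤ (fun i => F (z i))) →
      (∃ z : Fin (d + 1) → X, (∀ i, z i ∈ Z) ∧ LinearIndependent ℤ (fun i => F (z i))) ∨
      ∃ z : Fin d → X, (∀ i, z i ∈ Z) ∧ ∀ q ∈ Z, IsComb (fun i => F (z i)) (F q) := by
    rintro d ⟨z, hz, hind⟩
    by_cases hall : ∀ q ∈ Z, IsComb (fun i => F (z i)) (F q)
    · exact Or.inr ⟨z, hz, hall⟩
    left
    push Not at hall
    obtain ⟨q, hq, hne⟩ := hall
    refine ⟨Fin.cons q z, Fin.cases hq hz, ?_⟩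
    have h1 : (fun i : Fin (d + 1) => F ((Fin.cons q z : Fin (d + 1) → X) i)) =
        (Fin.cons (F q) (fun i => F (z i)) : Fin (d + 1) → ℤ[T;T⁻¹]) := by
      funext i
      refine Fin.cases rfl (fun i => rfl) i
    rw [h1]
    refine hind.finCons' _ _ ?_
    intro c y hy h0
    by_contra hc
    apply hne
    rw [Submodule.mem_span_range_iff_exists_fun] at hy
    obtain ⟨x, hx⟩ := hy
    refine ⟨c, fun i => -x i, hc, ?_⟩
    have h2 : c • F q = -y := eq_neg_of_add_eq_zero_left h0
    rw [h2, ← hx, ← Finset.sum_neg_distrib]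
    refine Finset.sum_congr rfl fun i _ => ?_
    rw [neg_smul]
  intro d
  induction d with
  | zero =>
    exact hstep 0 ⟨fun i => i.elim0, fun i => i.elim0, linearIndependent_empty_type⟩
  | succ d ih =>
    rcases ih with h | ⟨z, hz, hall⟩
    · exact hstep (d + 1) h
    · right
      obtain ⟨q0, hq0⟩ := hZ
      refine ⟨Fin.cons q0 z, Fin.cases hq0 hz, fun q hq => ?_⟩
      have h1 : (fun i : Fin (d + 1) => F ((Fin.cons q0 z : Fin (d + 1) → X) i)) =
          (Fin.cons (F q0) (fun i => F (z i)) : Fin (d + 1) → ℤ[T;T⁻¹]) := by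
        funext i
        refine Fin.cases rfl (fun i => rfl) i
      rw [h1]
      exact (hall q hq).cons _

/-- supports -/
theorem isComb_T_iff (J : Finset ℤ) (G : ℤ[T;T⁻¹]) :
    IsComb (fun i : Fin (#J) => (T ((J.equivFin.symm i : J) : ℤ) : ℤ[T;T⁻¹])) G ↔
      ∀ e, G.coeff e ≠ 0 → e ∈ J := by
  classical
  constructor
  · rintro ⟨N, x, hN, h⟩ e he
    by_contra hJ
    have h1 := congrArg (fun H : ℤ[T;T⁻¹] => H.coeff e) h
    simp only at h1
    rw [AddMonoidAlgebra.coeff_smul, Finsupp.smul_apply, smul_eq_mul, AddMonoidAlgebra.coeff_sum,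
      Finsupp.finsetSum_apply] at h1
    rw [Finset.sum_eq_zero] at h1
    · rcases mul_eq_zero.1 h1 with h2 | h2
      · exact hN h2
      · exact he h2
    · intro i _
      rw [AddMonoidAlgebra.coeff_smul, Finsupp.smul_apply, T_apply, if_neg, smul_zero]
      intro h3
      apply hJ
      rw [← h3]
      exact (J.equivFin.symm i).2
  · intro h
    refine ⟨1, fun i => G.coeff ((J.equivFin.symm i : J) : ℤ), one_ne_zero, ?_⟩
    apply LaurentPolynomial.ext
    intro e
    rw [one_smul, AddMonoidAlgebra.coeff_sum, Finsupp.finsetSum_apply]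
    have h1 : ∑ i : Fin (#J), (G.coeff ((J.equivFin.symm i : J) : ℤ) •
        (T ((J.equivFin.symm i : J) : ℤ) : ℤ[T;T⁻¹])).coeff e =
        ∑ i : Fin (#J), (if ((J.equivFin.symm i : J) : ℤ) = e then G.coeff e else 0) := by
      refine Finset.sum_congr rfl fun i _ => ?_
      rw [AddMonoidAlgebra.coeff_smul, Finsupp.smul_apply, T_apply]
      split_ifs with h2
      · rw [h2, smul_eq_mul, mul_one]
      · rw [smul_zero]
    rw [h1]
    rw [Equiv.sum_comp J.equivFin.symm (fun y : J => if (y : ℤ) = e then G.coeff e else 0)]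
    rw [Finset.sum_coe_sort J (fun y => if y = e then G.coeff e else 0), Finset.sum_ite_eq']
    split_ifs with h2
    · rfl
    · by_contra hne
      exact h2 (h e hne)

theorem writhe_le {P : Type} (D : Diagram P) : |D.writhe| ≤ D.crossings.length := by
  unfold Diagram.writhe
  have h : ∀ l : List (Crossing P), |(l.map Crossing.sign).sum| ≤ (l.length : ℤ) := by
    intro l
    induction l with
    | nil => simp
    | cons x l ih =>
      rw [List.map_cons, List.sum_cons, List.length_cons]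
      have h1 : |Crossing.sign x| ≤ 1 := by
        unfold Crossing.sign
        split_ifs <;> simp
      push_cast
      calc |Crossing.sign x + (l.map Crossing.sign).sum| ≤ |Crossing.sign x| +
            |(l.map Crossing.sign).sum| := abs_add_le _ _
        _ ≤ _ := by linarith
  exact h _

/-- exponents of the normalised bracket -/
theorem exponents {P : Type} [Finite P] (D : Diagram P) (e : ℤ) (he : D.fPoly.coeff e ≠ 0) :
    |e| ≤ 4 * D.crossings.length + 2 * Nat.card P := by
  have h1 : D.bracket.coeff (e + 3 * D.writhe) ≠ 0 := by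
    intro h0
    apply he
    have h2 : D.fPoly = (if Even D.writhe then (1 : ℤ) else -1) • (D.bracket * T (-3 * D.writhe)) := by
      unfold Diagram.fPoly
      split_ifs
      · rw [one_mul, one_smul, mul_comm]
      · rw [neg_mul, one_mul, neg_smul, one_smul, neg_mul, mul_comm]
    rw [h2, AddMonoidAlgebra.coeff_smul, Finsupp.smul_apply,
      Pool.Agent.W705.JR.coeff_mul_T]
    have h3 : e - -3 * D.writhe = e + 3 * D.writhe := by ring
    rw [h3, h0, smul_zero]
  have h2 := Pool.Agent.W705.JR.within_bracket D _ h1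
  have h3 := writhe_le D
  rw [abs_le] at *
  push_cast at h2
  constructor <;> linarith [h2.1, h2.2, h3.1, h3.2]

end Q99.SML5
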