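import Pool.Agent.Q99.SML.Embed

/-!
# Membership in finite-dimensional spaces of Laurent polynomials as a relation between values
-/

set_option autoImplicit false

open Polynomial LaurentPolynomial Finset

namespace Q99.SML5

open Q99.SML

/-- `F` is a linear combination of the `v j` with rational coefficients -/
def IsComb {d : ℕ} (v : Fin d → ℤ[T;T⁻¹]) (F : ℤ[T;T⁻¹]) : Prop :=
  ∃ (N : ℤ) (x : Fin d → ℤ), N ≠ 0 ∧ N • F = ∑ j, x j • v j

variable (p : ℕ) [hp : Fact p.Prime]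

/-- change of coefficients -/
noncomputable def up : ℤ[T;T⁻¹] →+* ℚ_[p][T;T⁻¹] :=
  AddMonoidAlgebra.mapRingHom ℤ (Int.castRingHom ℚ_[p])

theorem up_coeff (F : ℤ[T;T⁻¹]) (e : ℤ) : (up p F).coeff e = ((F.coeff e : ℤ) : ℚ_[p]) := by
  unfold up
  rw [AddMonoidAlgebra.coeff_mapRingHom]
  rfl

theorem up_T (n : ℤ) : up p (T n) = T n := by
  apply LaurentPolynomial.ext
  intro e
  rw [up_coeff, T_apply, T_apply]
  split_ifs <;> simp

/-- a unit of `ℤ_[p]` as a unit of `ℚ_[p]` -/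
noncomputable def unitK (a : ℤ_[p]ˣ) : ℚ_[p]ˣ := Units.map (PadicInt.Coe.ringHom (p := p) : ℤ_[p] →* ℚ_[p]) a

theorem unitK_val (a : ℤ_[p]ˣ) : ((unitK p a : ℚ_[p]ˣ) : ℚ_[p]) = ((a : ℤ_[p]) : ℚ_[p]) := rfl

/-- evaluation -/
noncomputable def ev (a : ℤ_[p]ˣ) : ℚ_[p][T;T⁻¹] →ₐ[ℚ_[p]] ℚ_[p] :=
  { LaurentPolynomial.eval₂ (RingHom.id ℚ_[p]) (unitK p a) with
    commutes' := fun r => by
      show LaurentPolynomial.eval₂ (RingHom.id ℚ_[p]) (unitK p a) (algebraMap _ _ r) = r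
      rw [LaurentPolynomial.algebraMap_apply, LaurentPolynomial.eval₂_C]
      rfl }

theorem ev_def (a : ℤ_[p]ˣ) (G : ℚ_[p][T;T⁻¹]) :
    ev p a G = LaurentPolynomial.eval₂ (RingHom.id ℚ_[p]) (unitK p a) G := rfl

theorem ev_up (a : ℤ_[p]ˣ) (F : ℤ[T;T⁻¹]) : ev p a (up p F) = ((spec a F : ℤ_[p]) : ℚ_[p]) := by
  induction F using LaurentPolynomial.induction_on' with
  | add F G hF hG => rw [map_add, map_add, hF, hG, map_add, PadicInt.coe_add]
  | C_mul_T n c =>
    have h1 : (C c : ℤ[T;T⁻¹]) = (c : ℤ[T;T⁻¹]) := by simp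
    rw [h1, map_mul, map_mul, map_mul, map_intCast, map_intCast, map_intCast, up_T, spec_T,
      PadicInt.coe_mul, PadicInt.coe_intCast, ev_def, LaurentPolynomial.eval₂_T]
    congr 1
    have h2 : unitK p a ^ n = unitK p (a ^ n) := by
      unfold unitK
      rw [map_zpow]
    show ((unitK p a ^ n : ℚ_[p]ˣ) : ℚ_[p]) = _
    rw [h2]
    rfl

theorem zeros_finite (G : ℚ_[p][T;T⁻¹]) (hG : G ≠ 0) : {a : ℤ_[p]ˣ | ev p a G = 0}.Finite := by
  classical
  obtain ⟨n, f, hf⟩ := LaurentPolynomial.exists_T_pow G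
  have hf0 : f ≠ 0 := by
    rintro rfl
    apply hG
    rw [map_zero] at hf
    have h5 : G * T n * T (-n) = 0 := by rw [← hf, zero_mul]
    rwa [mul_assoc, ← T_add, add_neg_cancel, T_zero, mul_one] at h5
  have hinj : Function.Injective (fun a : ℤ_[p]ˣ => ((a : ℤ_[p]) : ℚ_[p])) := by
    intro a b hab
    apply Units.ext
    exact Subtype.coe_injective hab
  have hfin := (f.roots.toFinset.finite_toSet).preimage (hinj.injOn
    (s := (fun a : ℤ_[p]ˣ => ((a : ℤ_[p]) : ℚ_[p])) ⁻¹' (f.roots.toFinset : Set ℚ_[p])))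
  refine hfin.subset ?_
  intro a ha
  rw [Set.mem_preimage, Finset.mem_coe, Multiset.mem_toFinset, mem_roots hf0]
  have h1 : ev p a (toLaurent f) = 0 := by
    rw [hf, map_mul, show ev p a G = 0 from ha, zero_mul]
  rw [ev_def, LaurentPolynomial.eval₂_toLaurent] at h1
  exact h1

theorem not_countable_int : ¬ Countable ℤ_[p] := by
  intro h
  have h2 : Countable ℚ_[p] := by
    have hs : Function.Surjective (fun x : ℤ_[p] × Bool =>
        if x.2 then ((x.1 : ℤ_[p]) : ℚ_[p]) else ((x.1 : ℤ_[p]) : ℚ_[p])⁻¹) := by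
      intro x
      by_cases hx : ‖x‖ ≤ 1
      · exact ⟨(⟨x, hx⟩, true), by simp⟩
      · push Not at hx
        refine ⟨(⟨x⁻¹, by rw [norm_inv]; exact inv_le_one_of_one_le₀ hx.le⟩, false), by simp⟩
    exact hs.countable
  have h3 := continuum_le_cardinal_of_nontriviallyNormedField ℚ_[p]
  exact absurd (h3.trans (Cardinal.mk_le_aleph0_iff.2 h2)) (not_le.2 Cardinal.aleph0_lt_continuum)

/-- the units congruent to one -/
def S : Set ℤ_[p]ˣ := {a | PadicInt.toZMod (a : ℤ_[p]) = 1}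

theorem exists_S (y : ℤ_[p]) : ∃ a ∈ S p, ((a : ℤ_[p]ˣ) : ℤ_[p]) = 1 + (p : ℤ_[p]) * y := by
  have hmod : PadicInt.toZMod (1 + (p : ℤ_[p]) * y) = 1 := by
    rw [map_add, map_one, map_mul, map_natCast, ZMod.natCast_self, zero_mul, add_zero]
  have h1 : IsUnit (1 + (p : ℤ_[p]) * y) := by
    by_contra h
    have h2 : (1 + (p : ℤ_[p]) * y) ∈ IsLocalRing.maximalIdeal ℤ_[p] := by
      rw [IsLocalRing.mem_maximalIdeal]; exact h
    rw [← PadicInt.ker_toZMod, RingHom.mem_ker, hmod] at h2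
    exact one_ne_zero h2
  obtain ⟨a, ha⟩ := h1
  refine ⟨a, ?_, ha⟩
  show PadicInt.toZMod (a : ℤ_[p]) = 1
  rw [ha]; exact hmod

theorem S_not_countable : ¬ (S p).Countable := by
  intro h
  choose f hf hf' using exists_S p
  apply not_countable_int p
  have : Countable (S p) := h
  have hpz : (p : ℤ_[p]) ≠ 0 := by exact_mod_cast hp.out.ne_zero
  have hinj : Function.Injective (fun y : ℤ_[p] => (⟨f y, hf y⟩ : S p)) := by
    intro y z hyz
    have h1 : f y = f z := congrArg Subtype.val hyz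
    have h2 := congrArg (fun u : ℤ_[p]ˣ => (u : ℤ_[p])) h1
    simp only [hf'] at h2
    exact mul_left_cancel₀ hpz (add_left_cancel h2)
  exact hinj.countable

theorem exists_point (G : ℚ_[p][T;T⁻¹]) (hG : G ≠ 0) : ∃ a ∈ S p, ev p a G ≠ 0 := by
  by_contra hcon
  push Not at hcon
  exact S_not_countable p ((zeros_finite p G hG).countable.mono hcon)

theorem points : ∀ (n : ℕ) (W : Submodule ℚ_[p] ℚ_[p][T;T⁻¹]) [FiniteDimensional ℚ_[p] W],
    Module.finrank ℚ_[p] W ≤ n → ∃ a : Fin n → ℤ_[p]ˣ, (∀ i, a i ∈ S p) ∧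
      ∀ G ∈ W, (∀ i, ev p (a i) G = 0) → G = 0 := by
  intro n
  induction n with
  | zero =>
    intro W _ h
    refine ⟨fun i => i.elim0, fun i => i.elim0, fun G hG _ => ?_⟩
    have h1 : W = ⊥ := Submodule.finrank_eq_zero.1 (Nat.le_zero.1 h)
    rw [h1, Submodule.mem_bot] at hG
    exact hG
  | succ n ih =>
    intro W _ h
    by_cases hW : W = ⊥
    · obtain ⟨a, ha, _⟩ := exists_S p 0
      refine ⟨fun _ => a, fun _ => ha, fun G hG _ => ?_⟩
      rw [hW, Submodule.mem_bot] at hG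
      exact hG
    · obtain ⟨G0, hG0, hne⟩ := Submodule.exists_mem_ne_zero_of_ne_bot hW
      obtain ⟨a0, ha0, hev⟩ := exists_point p G0 hne
      set W' := W ⊓ LinearMap.ker (ev p a0).toLinearMap with hW'
      have hlt : W' < W := by
        refine lt_of_le_of_ne inf_le_left fun he => ?_
        have h1 : G0 ∈ W' := by rw [he]; exact hG0
        exact hev h1.2
      have : FiniteDimensional ℚ_[p] W' := Submodule.finiteDimensional_of_le hlt.le
      have h2 := Submodule.finrank_lt_finrank_of_lt hlt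
      obtain ⟨a, ha, h3⟩ := ih W' (by omega)
      refine ⟨Fin.cons a0 a, Fin.cases ha0 ha, fun G hG hz => ?_⟩
      refine h3 G ⟨hG, hz 0⟩ fun i => ?_
      exact hz i.succ

theorem exists_retraction : ∃ φ : ℚ_[p] →ₗ[ℚ] ℚ, ∀ x : ℚ, φ (x : ℚ_[p]) = x := by
  obtain ⟨g, hg⟩ := (Algebra.linearMap ℚ ℚ_[p]).exists_leftInverse_of_injective
    (LinearMap.ker_eq_bot.2 (algebraMap ℚ ℚ_[p]).injective)
  refine ⟨g, fun x => ?_⟩
  have := LinearMap.congr_fun hg x
  exact this

/-- the space spanned over `ℚ_[p]` -/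
noncomputable def span {d : ℕ} (v : Fin d → ℤ[T;T⁻¹]) : Submodule ℚ_[p] ℚ_[p][T;T⁻¹] :=
  Submodule.span ℚ_[p] (Set.range fun j => up p (v j))

theorem isComb_of_mem {d : ℕ} (v : Fin d → ℤ[T;T⁻¹]) (F : ℤ[T;T⁻¹]) (h : up p F ∈ span p v) :
    IsComb v F := by
  unfold span at h
  rw [Submodule.mem_span_range_iff_exists_fun] at h
  obtain ⟨μ, hμ⟩ := h
  obtain ⟨φ, hφ⟩ := exists_retraction p
  obtain ⟨b, hb⟩ := IsLocalization.exist_integer_multiples_of_finite (nonZeroDivisors ℤ)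
    (fun j : Fin d => (φ (μ j) : ℚ))
  choose x hx using hb
  have hb0 : (b : ℤ) ≠ 0 := nonZeroDivisors.coe_ne_zero b
  refine ⟨b, x, hb0, ?_⟩
  apply LaurentPolynomial.ext
  intro e
  have h1 : ((F.coeff e : ℤ) : ℚ_[p]) = ∑ j, μ j * (((v j).coeff e : ℤ) : ℚ_[p]) := by
    rw [← up_coeff, ← hμ]
    rw [AddMonoidAlgebra.coeff_sum, Finsupp.finsetSum_apply]
    refine Finset.sum_congr rfl fun j _ => ?_
    rw [AddMonoidAlgebra.coeff_smul, Finsupp.smul_apply, smul_eq_mul, up_coeff]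
  have h2 : ((F.coeff e : ℤ) : ℚ) = ∑ j, φ (μ j) * (((v j).coeff e : ℤ) : ℚ) := by
    have h3 := congrArg φ h1
    rw [map_sum] at h3
    have h4 : φ ((F.coeff e : ℤ) : ℚ_[p]) = ((F.coeff e : ℤ) : ℚ) := by
      have := hφ ((F.coeff e : ℤ) : ℚ)
      rwa [Rat.cast_intCast] at this
    rw [h4] at h3
    rw [h3]
    refine Finset.sum_congr rfl fun j _ => ?_
    rw [mul_comm, ← zsmul_eq_mul, map_zsmul, zsmul_eq_mul, mul_comm]
  have h5 : (((b : ℤ) * F.coeff e : ℤ) : ℚ) = ((∑ j, x j * (v j).coeff e : ℤ) : ℚ) := by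
    push_cast
    rw [h2, Finset.mul_sum]
    refine Finset.sum_congr rfl fun j _ => ?_
    have h6 := hx j
    have h7 : ((x j : ℤ) : ℚ) = ((b : ℤ) : ℚ) * φ (μ j) := by
      rw [← zsmul_eq_mul]
      exact h6
    rw [h7]; ring
  have h6 : (b : ℤ) * F.coeff e = ∑ j, x j * (v j).coeff e := by exact_mod_cast h5
  rw [AddMonoidAlgebra.coeff_smul, Finsupp.smul_apply, smul_eq_mul, h6, AddMonoidAlgebra.coeff_sum,
    Finsupp.finsetSum_apply]
  refine Finset.sum_congr rfl fun j _ => ?_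
  rw [AddMonoidAlgebra.coeff_smul, Finsupp.smul_apply, smul_eq_mul]

theorem mem_of_isComb {d : ℕ} (v : Fin d → ℤ[T;T⁻¹]) (F : ℤ[T;T⁻¹]) (h : IsComb v F) :
    up p F ∈ span p v := by
  obtain ⟨N, x, hN, h1⟩ := h
  have hN' : (N : ℚ_[p]) ≠ 0 := by exact_mod_cast hN
  have h2 : (N : ℚ_[p]) • up p F ∈ span p v := by
    have h3 : (N : ℚ_[p]) • up p F = ∑ j, (x j : ℚ_[p]) • up p (v j) := by
      have h4 := congrArg (up p) h1
      rw [map_zsmul, map_sum] at h4
      rw [Int.cast_smul_eq_zsmul, h4]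
      refine Finset.sum_congr rfl fun j _ => ?_
      rw [map_zsmul, Int.cast_smul_eq_zsmul]
    rw [h3]
    refine Submodule.sum_mem _ fun j _ => Submodule.smul_mem _ _ (Submodule.subset_span ⟨j, rfl⟩)
  have h3 := Submodule.smul_mem _ ((N : ℚ_[p])⁻¹) h2
  rwa [smul_smul, inv_mul_cancel₀ hN', one_smul] at h3

/-- membership is one relation between the values at `d + 1` points -/
theorem exists_functional {d : ℕ} (v : Fin d → ℤ[T;T⁻¹]) :
    ∃ (a : Fin (d + 1) → ℤ_[p]ˣ) (c : Fin (d + 1) → ℤ_[p]), (∀ i, PadicInt.toZMod (a i : ℤ_[p]) = 1) ∧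
      ∀ F : ℤ[T;T⁻¹], ∑ i, c i * spec (a i) F = 0 ↔ IsComb v F := by
  classical
  have hfd : FiniteDimensional ℚ_[p] (span p v) :=
    FiniteDimensional.span_of_finite ℚ_[p] (Set.finite_range _)
  have hrk : Module.finrank ℚ_[p] (span p v) ≤ d := by
    have := finrank_range_le_card (R := ℚ_[p]) (fun j => up p (v j))
    rwa [Fintype.card_fin] at this
  obtain ⟨a, ha, hinj⟩ := points p d (span p v) hrk
  let E : ℚ_[p][T;T⁻¹] →ₗ[ℚ_[p]] (Fin d → ℚ_[p]) := LinearMap.pi fun i => (ev p (a i)).toLinearMap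
  obtain ⟨R, hR⟩ := (E ∘ₗ (span p v).subtype).exists_leftInverse_of_injective (by
    rw [LinearMap.ker_eq_bot']
    intro G hG
    apply Subtype.ext
    exact hinj G.1 G.2 fun i => congrFun hG i)
  have hR' : ∀ G ∈ span p v, ((R (E G) : span p v) : ℚ_[p][T;T⁻¹]) = G := by
    intro G hG
    have := LinearMap.congr_fun hR ⟨G, hG⟩
    exact congrArg Subtype.val this
  have hb : ∃ b ∈ S p, ∀ F : ℤ[T;T⁻¹], ¬ IsComb v F →
      ev p b (up p F - (R (E (up p F)) : ℚ_[p][T;T⁻¹])) ≠ 0 := by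
    by_contra hcon
    push Not at hcon
    have hcount : Countable ℤ[T;T⁻¹] := by
      have : Function.Injective (fun F : ℤ[T;T⁻¹] => F.coeff) := fun F G h => by
        apply LaurentPolynomial.ext
        intro e
        exact DFunLike.congr_fun h e
      exact this.countable
    have h1 : (S p) ⊆ ⋃ F ∈ {F : ℤ[T;T⁻¹] | ¬ IsComb v F},
        {b : ℤ_[p]ˣ | ev p b (up p F - (R (E (up p F)) : ℚ_[p][T;T⁻¹])) = 0} := by
      intro b hb
      obtain ⟨F, hF, h2⟩ := hcon b hb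
      rw [Set.mem_iUnion₂]
      exact ⟨F, hF, h2⟩
    refine S_not_countable p ((Set.Countable.biUnion (Set.to_countable _) fun F hF => ?_).mono h1)
    refine (zeros_finite p _ ?_).countable
    intro h0
    apply hF
    apply isComb_of_mem p
    rw [sub_eq_zero.1 h0]
    exact (R (E (up p F))).2
  obtain ⟨b, hbS, hb⟩ := hb
  let κ : Fin (d + 1) → ℚ_[p] := Fin.snoc (α := fun _ => ℚ_[p])
    (fun i => - ev p b ((R (Pi.single i 1) : span p v) : ℚ_[p][T;T⁻¹])) 1
  obtain ⟨N, hN⟩ := IsLocalization.exist_integer_multiples_of_finite (nonZeroDivisors ℤ_[p]) κ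
  choose c hc using hN
  have hN0 : ((N : ℤ_[p]) : ℚ_[p]) ≠ 0 := by
    have := nonZeroDivisors.coe_ne_zero N
    intro h
    exact this (Subtype.coe_injective h)
  refine ⟨Fin.snoc (α := fun _ => ℤ_[p]ˣ) a b, c, ?_, fun F => ?_⟩
  · intro i
    refine Fin.lastCases ?_ (fun i => ?_) i
    · rw [Fin.snoc_last]; exact hbS
    · rw [Fin.snoc_castSucc]; exact ha i
  · have hc' : ∀ i, (c i : ℚ_[p]) = ((N : ℤ_[p]) : ℚ_[p]) * κ i := by
      intro i
      have := hc i
      rw [Algebra.smul_def] at this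
      exact this
    have hE : ∀ G : ℚ_[p][T;T⁻¹], ev p b ((R (E G) : span p v) : ℚ_[p][T;T⁻¹]) =
        ∑ i, ev p (a i) G * ev p b ((R (Pi.single i 1) : span p v) : ℚ_[p][T;T⁻¹]) := by
      intro G
      have h1 : E G = ∑ i, ev p (a i) G • (Pi.single i 1 : Fin d → ℚ_[p]) := by
        funext j
        rw [Finset.sum_apply, Finset.sum_eq_single j]
        · simp [E]
        · intro i _ hi
          simp [hi.symm]
        · intro h; exact absurd (Finset.mem_univ _) h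
      rw [h1, map_sum, Submodule.coe_sum, map_sum]
      refine Finset.sum_congr rfl fun i _ => ?_
      rw [map_smul, Submodule.coe_smul, map_smul, smul_eq_mul]
    have key : ((∑ i, c i * spec (Fin.snoc (α := fun _ => ℤ_[p]ˣ) a b i) F : ℤ_[p]) : ℚ_[p]) =
        ((N : ℤ_[p]) : ℚ_[p]) * ev p b (up p F - (R (E (up p F)) : ℚ_[p][T;T⁻¹])) := by
      rw [PadicInt.coe_sum, Fin.sum_univ_castSucc, map_sub, hE]
      simp only [PadicInt.coe_mul, hc', Fin.snoc_castSucc, Fin.snoc_last, κ, ← ev_up]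
      rw [mul_sub, sub_eq_neg_add, Finset.mul_sum, ← Finset.sum_neg_distrib]
      congr 1
      · refine Finset.sum_congr rfl fun i _ => ?_
        ring
      · ring
    constructor
    · intro h0
      by_contra hne
      rw [h0, PadicInt.coe_zero] at key
      rcases mul_eq_zero.1 key.symm with h | h
      · exact hN0 h
      · exact hb F hne h
    · intro hF
      have h1 := hR' _ (mem_of_isComb p v F hF)
      rw [h1, sub_self, map_zero, mul_zero] at key
      exact PadicInt.ext (by rw [key, PadicInt.coe_zero])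

end Q99.SML5
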